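import Pool.Agent.Y89.KS.Defs5

/-!
# (PLUS) adding a trivial variable to a system (helper37, job 761)
-/

set_option autoImplicit false

open Matrix Finset

namespace Pool.Agent.Y37.KS

open Pool.Agent.Y89.KS

section
variable {F : Type} [Field F] {ι : Type}

/-- the extension of a colouring of the variables by the unit -/
def ex {S : Type} (pat : S → Bool) (L : {s // pat s = false} → ι) : S → ι ⊕ Unit :=
  fun s => if hs : pat s = false then Sum.inl (L ⟨s, hs⟩) else Sum.inr ()

theorem mem_plus {M : ∀ S : Type, Submodule F ((S → ι) → F)} {S : Type}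
    {h : (S → ι ⊕ Unit) → F} : h ∈ plus M S ↔ ∀ pat : S → Bool,
      (fun L : {s // pat s = false} → ι => h (ex pat L)) ∈ M {s // pat s = false} := Iff.rfl

/-- the variables of the extended colouring, both new variables being in `ι` -/
def e1 {S : Type} (pat : S → Bool) :
    {x : S ⊕ Bool // Sum.elim pat (fun _ => false) x = false} ≃ {s // pat s = false} ⊕ Bool where
  toFun x := match x with
    | ⟨Sum.inl s, h⟩ => Sum.inl ⟨s, h⟩
    | ⟨Sum.inr b, _⟩ => Sum.inr b
  invFun y := match y with
    | Sum.inl s => ⟨Sum.inl s.1, s.2⟩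
    | Sum.inr b => ⟨Sum.inr b, rfl⟩
  left_inv x := by
    rcases x with ⟨s | b, h⟩ <;> rfl
  right_inv y := by
    rcases y with s | b <;> rfl

/-- the variables of the extended colouring, both new variables being the unit -/
def e2 {S : Type} (pat : S → Bool) :
    {x : S ⊕ Bool // Sum.elim pat (fun _ => true) x = false} ≃ {s // pat s = false} where
  toFun x := match x with
    | ⟨Sum.inl s, h⟩ => ⟨s, h⟩
    | ⟨Sum.inr _, h⟩ => absurd (show true = false from h) (by decide)
  invFun s := ⟨Sum.inl s.1, s.2⟩
  left_inv x := by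
    rcases x with ⟨s | b, h⟩
    · rfl
    · exact absurd (show true = false from h) (by decide)
  right_inv y := rfl

theorem ex_e1 {S : Type} (pat : S → Bool) (L : {s // pat s = false} → ι) (p q : ι) :
    ex (Sum.elim pat fun _ => false) (fun x => Sum.elim L (fun b => cond b q p) (e1 pat x)) =
      Sum.elim (ex pat L) fun b => cond b (Sum.inl q) (Sum.inl p) := by
  funext x
  rcases x with s | b
  · rfl
  · cases b <;> rfl

theorem ex_e2 {S : Type} (pat : S → Bool) (L : {s // pat s = false} → ι) :
    ex (Sum.elim pat fun _ => true) (fun x => L (e2 pat x)) =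
      Sum.elim (ex pat L) fun b => cond b (Sum.inr ()) (Sum.inr ()) := by
  funext x
  rcases x with s | b
  · rfl
  · cases b <;> rfl

end

theorem plus_gsys : S_plus := by
  intro F _ ι _ R M hM κ
  refine ⟨?_, ?_, ?_, ?_⟩
  · intro S _ f
    rw [mem_plus]
    intro pat
    exact hM.unit _ _
  · intro S S' f g hf hg
    rw [mem_plus] at hf hg ⊢
    intro pat
    have h1 := hM.mul _ _ _ _ (hf fun s => pat (Sum.inl s)) (hg fun s => pat (Sum.inr s))
    have h2 := hM.reidx _ _ (Equiv.subtypeSum (p := fun x => pat x = false)).symm _ h1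
    exact h2
  · intro S S' e f hf
    rw [mem_plus] at hf ⊢
    intro pat
    have h1 := hf fun s => pat (e s)
    have h2 := hM.reidx _ _ (e.subtypeEquiv (p := fun s => pat (e s) = false)
      (q := fun s => pat s = false) fun _ => Iff.rfl) _ h1
    exact h2
  · intro S f hf
    rw [mem_plus] at hf ⊢
    intro pat
    have h2 := hM.con _ _ (hM.reidx _ _ (e1 pat) _ (hf (Sum.elim pat fun _ => false)))
    have h3 := hM.reidx _ _ (e2 pat) _ (hf (Sum.elim pat fun _ => true))
    have h4 := Submodule.add_mem _ h2 (Submodule.smul_mem _ κ h3)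
    have h5 : (fun L : {s // pat s = false} → ι => ∑ p, ∑ q,
        fromBlocks R 0 0 (Matrix.of fun _ _ : Unit => κ) p q *
          f (Sum.elim (ex pat L) fun b => cond b q p)) =
        (fun J => ∑ p, ∑ q, R p q * f (ex (Sum.elim pat fun _ => false)
          (fun x => Sum.elim J (fun b => cond b q p) (e1 pat x)))) +
        κ • fun J => f (ex (Sum.elim pat fun _ => true) (fun x => J (e2 pat x))) := by
      funext L
      simp only [Fintype.sum_sum_type, fromBlocks_apply₁₁, fromBlocks_apply₁₂,
        fromBlocks_apply₂₁, fromBlocks_apply₂₂, Matrix.zero_apply, zero_mul,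
        Finset.sum_const_zero, add_zero, zero_add, Pi.add_apply, Pi.smul_apply, smul_eq_mul,
        ex_e1, ex_e2, Matrix.of_apply, Finset.univ_unique, Finset.sum_singleton]
    have h6 : (fun L : {s // pat s = false} → ι => ∑ p, ∑ q,
        fromBlocks R 0 0 (Matrix.of fun _ _ : Unit => κ) p q *
          f (Sum.elim (ex pat L) fun b => cond b q p)) ∈ M {s // pat s = false} := by
      rw [h5]
      exact h4
    exact h6

end Pool.Agent.Y37.KS
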